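import Mathlib

/-!
# MP_3b0c1c_an: generic nowhere differentiability along all unit speed `C¹` curves

For every `d` and every bounded open `U ⊆ ℝᵈ`, the set of continuous functions on the closure of
`U` whose restriction to every unit speed `C¹` curve in `U` is nowhere differentiable contains a
dense `G_δ` subset of `C(closure U)`.
-/

set_option autoImplicit false

open Set Filter Topology

namespace Pool.Agent.Results.MP_3b0c1c_an.GenericAllCurves

/-- Euclidean `d`-space. -/
abbrev E (d : ℕ) := EuclideanSpace ℝ (Fin d)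

/-- `c`, restricted to the interval `I` of positive length, is a unit speed `C¹` curve in `U`. -/
structure IsUnitSpeedCurve {d : ℕ} (U : Set (E d)) (I : Set ℝ) (c : ℝ → E d) : Prop where
  interval : I.OrdConnected
  nontrivial : I.Nontrivial
  contDiffOn : ContDiffOn ℝ 1 c I
  mapsTo : ∀ t ∈ I, c t ∈ U
  unitSpeed : ∀ t ∈ I, ‖derivWithin c I t‖ = 1

/-- The set `𝒩(U)` of the continuous functions `f` on the closure of `U` such that for every unit
speed `C¹` curve `c : I → U` the function `f ∘ c` (that is, any function `g` which agrees with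
`f ∘ c` on `I`) is differentiable at no point of `I` (one-sided differentiability at the endpoints
of `I` that belong to `I`). -/
def NowhereDiff {d : ℕ} (U : Set (E d)) : Set C(closure U, ℝ) :=
  {f | ∀ (I : Set ℝ) (c : ℝ → E d), IsUnitSpeedCurve U I c →
    ∀ g : ℝ → ℝ, (∀ t ∈ I, ∀ h : c t ∈ closure U, g t = f ⟨c t, h⟩) →
      ∀ t ∈ I, ¬ DifferentiableWithinAt ℝ g I t}

/-- the test length -/
noncomputable def KK (d : ℕ) : ℝ := 4 * Real.pi * Real.sqrt d

/-- the oscillating function `A cos (N x_j)` -/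
noncomputable def wave {d : ℕ} (U : Set (E d)) (j : Fin d) (A N : ℝ) : C(closure U, ℝ) :=
  ⟨fun x => A * Real.cos (N * (x : E d) j), by fun_prop⟩

/-- functions which oscillate fast in direction `j` at some small scale -/
def O {d : ℕ} (U : Set (E d)) [CompactSpace (closure U)] (j : Fin d) (n : ℕ) :
    Set C(closure U, ℝ) :=
  {f | ∃ (A N : ℝ) (g : C(closure U, ℝ)), 0 < A ∧ (n : ℝ) < N ∧ (n : ℝ) < A * N ∧
    (∀ x y, dist x y ≤ KK d / N → dist (g x) (g y) ≤ A / 4) ∧ dist f (g + wave U j A N) < A / 8}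

lemma isOpen_O {d : ℕ} (U : Set (E d)) [CompactSpace (closure U)] (j : Fin d) (n : ℕ) :
    IsOpen (O U j n) := by
  have : O U j n = ⋃ (A : ℝ) (N : ℝ) (g : C(closure U, ℝ)) (_ : 0 < A ∧ (n : ℝ) < N ∧
      (n : ℝ) < A * N ∧ (∀ x y, dist x y ≤ KK d / N → dist (g x) (g y) ≤ A / 4)),
      Metric.ball (g + wave U j A N) (A / 8) := by
    ext f
    simp only [O, mem_ofPred_eq, mem_iUnion, Metric.mem_ball, exists_prop]
    constructor
    · rintro ⟨A, N, g, h1, h2, h3, h4, h5⟩
      exact ⟨A, N, g, ⟨h1, h2, h3, h4⟩, h5⟩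
    · rintro ⟨A, N, g, ⟨h1, h2, h3, h4⟩, h5⟩
      exact ⟨A, N, g, h1, h2, h3, h4, h5⟩
  rw [this]
  exact isOpen_iUnion fun _ => isOpen_iUnion fun _ => isOpen_iUnion fun _ =>
    isOpen_iUnion fun _ => Metric.isOpen_ball

lemma dense_O {d : ℕ} (U : Set (E d)) [CompactSpace (closure U)] (j : Fin d) (n : ℕ) :
    Dense (O U j n) := by
  rw [Metric.dense_iff]
  intro f r hr
  obtain ⟨δ, hδ, hf⟩ := Metric.uniformContinuous_iff.1
    (CompactSpace.uniformContinuous_of_continuous f.continuous) (r / 2 / 4) (by positivity)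
  have hK : 0 ≤ KK d := by unfold KK; positivity
  obtain ⟨N, hN⟩ := exists_gt (max (max (n : ℝ) (n / (r / 2))) (max 1 (KK d / δ)))
  have hN1 : (n : ℝ) < N := lt_of_le_of_lt (le_trans (le_max_left _ _) (le_max_left _ _)) hN
  have hN2 : (n : ℝ) / (r / 2) < N :=
    lt_of_le_of_lt (le_trans (le_max_right _ _) (le_max_left _ _)) hN
  have hN3 : 1 < N := lt_of_le_of_lt (le_trans (le_max_left _ _) (le_max_right _ _)) hN
  have hN4 : KK d / δ < N := lt_of_le_of_lt (le_trans (le_max_right _ _) (le_max_right _ _)) hN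
  have hN0 : 0 < N := by linarith
  refine ⟨f + wave U j (r / 2) N, ?_, ?_⟩
  · rw [Metric.mem_ball, ContinuousMap.dist_lt_iff hr]
    intro x
    simp only [ContinuousMap.add_apply, wave, ContinuousMap.coe_mk]
    rw [Real.dist_eq, add_sub_cancel_left, abs_mul, abs_of_pos (half_pos hr)]
    have := Real.abs_cos_le_one (N * (x : E d) j)
    nlinarith
  · refine ⟨r / 2, N, f, half_pos hr, hN1, ?_, ?_, ?_⟩
    · rw [div_lt_iff₀ (by positivity)] at hN2
      linarith
    · intro x y hxy
      refine (hf (lt_of_le_of_lt hxy ?_)).le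
      rw [div_lt_iff₀ hδ] at hN4
      rw [div_lt_iff₀ hN0]
      linarith
    · rw [dist_self]
      positivity

/-- an interval of length at least `2 π` contains points where the cosine is `1` and `-1` -/
lemma cos_points {a b : ℝ} (h : a + 2 * Real.pi ≤ b) :
    (∃ x ∈ Icc a b, Real.cos x = 1) ∧ ∃ x ∈ Icc a b, Real.cos x = -1 := by
  have hpi := Real.pi_pos
  constructor
  · refine ⟨⌈a / (2 * Real.pi)⌉ * (2 * Real.pi), ⟨?_, ?_⟩, Real.cos_int_mul_two_pi _⟩
    · have := Int.le_ceil (a / (2 * Real.pi))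
      rwa [div_le_iff₀ (by positivity)] at this
    · have := (Int.ceil_lt_add_one (a / (2 * Real.pi))).le
      have h2 : (⌈a / (2 * Real.pi)⌉ : ℝ) * (2 * Real.pi) ≤ (a / (2 * Real.pi) + 1) * (2 * Real.pi) :=
        mul_le_mul_of_nonneg_right this (by positivity)
      have h3 : (a / (2 * Real.pi) + 1) * (2 * Real.pi) = a + 2 * Real.pi := by
        field_simp
      linarith
  · refine ⟨⌈(a - Real.pi) / (2 * Real.pi)⌉ * (2 * Real.pi) + Real.pi, ⟨?_, ?_⟩,
      Real.cos_int_mul_two_pi_add_pi _⟩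
    · have := Int.le_ceil ((a - Real.pi) / (2 * Real.pi))
      rw [div_le_iff₀ (by positivity)] at this
      linarith
    · have := (Int.ceil_lt_add_one ((a - Real.pi) / (2 * Real.pi))).le
      have h2 : (⌈(a - Real.pi) / (2 * Real.pi)⌉ : ℝ) * (2 * Real.pi) ≤
          ((a - Real.pi) / (2 * Real.pi) + 1) * (2 * Real.pi) :=
        mul_le_mul_of_nonneg_right this (by positivity)
      have h3 : ((a - Real.pi) / (2 * Real.pi) + 1) * (2 * Real.pi) = a - Real.pi + 2 * Real.pi := by
        field_simp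
      linarith

lemma mem_uIcc' {a b x : ℝ} : x ∈ uIcc a b ↔ min a b ≤ x ∧ x ≤ max a b := Iff.rfl

/-- a continuous function on `[[s, t]]` with large increment, times `N`, hits the points where the
cosine is `1` and `-1` -/
lemma cos_osc {φ : ℝ → ℝ} {s t : ℝ} {N : ℝ} (hN : 0 < N) (hφ : ContinuousOn φ (uIcc s t))
    (h : 2 * Real.pi / N ≤ |φ t - φ s|) :
    (∃ u ∈ uIcc s t, Real.cos (N * φ u) = 1) ∧ ∃ u ∈ uIcc s t, Real.cos (N * φ u) = -1 := by
  have hpi := Real.pi_pos
  have h1 : N * min (φ s) (φ t) + 2 * Real.pi ≤ N * max (φ s) (φ t) := by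
    have h2 : max (φ s) (φ t) - min (φ s) (φ t) = |φ t - φ s| := max_sub_min_eq_abs _ _
    have h3 : 2 * Real.pi ≤ |φ t - φ s| * N := by
      rwa [div_le_iff₀ hN] at h
    nlinarith
  obtain ⟨⟨x, hx, hx1⟩, y, hy, hy1⟩ := cos_points h1
  have hivt := intermediate_value_uIcc (f := φ) hφ
  have key : ∀ z ∈ Icc (N * min (φ s) (φ t)) (N * max (φ s) (φ t)), ∃ u ∈ uIcc s t,
      N * φ u = z := by
    intro z hz
    have hz' : z / N ∈ uIcc (φ s) (φ t) := by
      rw [mem_uIcc']
      constructor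
      · rw [le_div_iff₀ hN]
        have := hz.1
        linarith
      · rw [div_le_iff₀ hN]
        have := hz.2
        linarith
    obtain ⟨u, hu, hu'⟩ := hivt hz'
    exact ⟨u, hu, by rw [hu']; field_simp⟩
  obtain ⟨u, hu, hu'⟩ := key x hx
  obtain ⟨v, hv, hv'⟩ := key y hy
  exact ⟨⟨u, hu, by rw [hu', hx1]⟩, v, hv, by rw [hv', hy1]⟩

/-- some coordinate of a unit vector has absolute value at least `1 / √d` -/
lemma exists_coord {d : ℕ} {v : E d} (hv : ‖v‖ = 1) : 0 < d ∧ ∃ j, 1 / Real.sqrt d ≤ |v j| := by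
  have h1 : ∑ i, ‖v i‖ ^ 2 = 1 := by
    rw [← EuclideanSpace.norm_sq_eq, hv, one_pow]
  have hd : 0 < d := by
    rcases Nat.eq_zero_or_pos d with h | h
    · subst h
      simp at h1
    · exact h
  refine ⟨hd, ?_⟩
  by_contra hcon
  push Not at hcon
  have hd' : (0 : ℝ) < d := by exact_mod_cast hd
  have h2 : ∑ i : Fin d, ‖v i‖ ^ 2 < ∑ _i : Fin d, (1 / (d : ℝ)) := by
    apply Finset.sum_lt_sum_of_nonempty
    · exact ⟨⟨0, hd⟩, Finset.mem_univ _⟩
    · intro i _
      have h3 := hcon i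
      rw [Real.norm_eq_abs]
      calc |v i| ^ 2 < (1 / Real.sqrt d) ^ 2 := by
            apply pow_lt_pow_left₀ h3 (abs_nonneg _) (by norm_num)
        _ = 1 / (d : ℝ) := by rw [div_pow, one_pow, Real.sq_sqrt hd'.le]
  rw [h1, Finset.sum_const, Finset.card_univ, Fintype.card_fin, nsmul_eq_mul,
    mul_one_div_cancel hd'.ne'] at h2
  exact lt_irrefl _ h2

/-- unit speed curves are `1`-Lipschitz -/
lemma IsUnitSpeedCurve.dist_le {d : ℕ} {U : Set (E d)} {I : Set ℝ} {c : ℝ → E d}
    (hc : IsUnitSpeedCurve U I c) {s t : ℝ} (hs : s ∈ I) (ht : t ∈ I) :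
    dist (c s) (c t) ≤ |s - t| := by
  have hconv : Convex ℝ I := hc.interval.convex
  have h := hconv.norm_image_sub_le_of_norm_derivWithin_le (f := c) (C := 1)
    (hc.contDiffOn.differentiableOn (by norm_num)) (fun x hx => (hc.unitSpeed x hx).le) ht hs
  rw [one_mul, Real.norm_eq_abs] at h
  rwa [dist_eq_norm]

/-- the interval contains a one-sided neighbourhood of each of its points -/
lemma exists_side {I : Set ℝ} (hI : I.OrdConnected) (hn : I.Nontrivial) {t : ℝ} (ht : t ∈ I) :
    ∃ σ : ℝ, |σ| = 1 ∧ ∃ δ > 0, ∀ s, 0 ≤ s → s ≤ δ → t + σ * s ∈ I := by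
  obtain ⟨u, hu, hut⟩ := hn.exists_ne t
  rcases lt_or_gt_of_ne hut with h | h
  · refine ⟨-1, by simp, t - u, by linarith, fun s hs hs' => hI.out hu ht ⟨?_, ?_⟩⟩ <;> linarith
  · refine ⟨1, by simp, u - t, by linarith, fun s hs hs' => hI.out ht hu ⟨?_, ?_⟩⟩ <;> linarith

lemma mem_nowhereDiff {d : ℕ} (U : Set (E d)) [CompactSpace (closure U)] {f : C(closure U, ℝ)}
    (hf : ∀ j n, f ∈ O U j n) : f ∈ NowhereDiff U := by
  intro I c hc g hg t ht hdiff
  have hderiv : HasDerivWithinAt c (derivWithin c I t) I t :=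
    ((hc.contDiffOn.differentiableOn (by norm_num)) t ht).hasDerivWithinAt
  set v := derivWithin c I t with hv
  obtain ⟨hd, j, hj⟩ := exists_coord (hc.unitSpeed t ht)
  have hd' : (0 : ℝ) < d := by exact_mod_cast hd
  have hsq : 0 < Real.sqrt d := Real.sqrt_pos.2 hd'
  have hpi := Real.pi_pos
  have hK : 0 < KK d := by unfold KK; positivity
  have hvj : 0 < |v j| := lt_of_lt_of_le (by positivity) hj
  obtain ⟨σ, hσ, δ₀, hδ₀, hside⟩ := exists_side hc.interval hc.nontrivial ht
  -- derivative of the coordinate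
  have hcj : HasDerivWithinAt (fun s => c s j) (v j) I t := by
    have := (hasDerivWithinAt_pi.1 ((EuclideanSpace.equiv (Fin d) ℝ).hasFDerivAt.comp_hasDerivWithinAt t
      hderiv)) j
    exact this
  rw [hasDerivWithinAt_iff_isLittleO] at hcj
  have h1 := hcj.def (half_pos hvj)
  have hgd := hdiff.hasDerivWithinAt
  set D := derivWithin g I t
  rw [hasDerivWithinAt_iff_isLittleO] at hgd
  have h2 := hgd.def one_pos
  obtain ⟨δ₁, hδ₁, h3⟩ := Metric.mem_nhdsWithin_iff.1 (h1.and h2)
  -- choose n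
  obtain ⟨n, hn⟩ := exists_nat_gt (max (KK d / δ₀) (max (KK d / δ₁) (4 * (|D| + 1) * KK d)))
  have hn0 : KK d / δ₀ < n := lt_of_le_of_lt (le_max_left _ _) hn
  have hn1 : KK d / δ₁ < n := lt_of_le_of_lt ((le_max_left _ _).trans (le_max_right _ _)) hn
  have hn2 : 4 * (|D| + 1) * KK d < n :=
    lt_of_le_of_lt ((le_max_right _ _).trans (le_max_right _ _)) hn
  obtain ⟨A, N, g₀, hA, hnN, hnAN, hg₀, hdist⟩ := hf j n
  have hN : 0 < N := lt_of_le_of_lt (Nat.cast_nonneg n) hnN
  have hKN0 : KK d / N ≤ δ₀ := by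
    rw [div_le_iff₀ hN]
    rw [div_lt_iff₀ hδ₀] at hn0
    nlinarith
  have hKN1 : KK d / N < δ₁ := by
    rw [div_lt_iff₀ hN]
    rw [div_lt_iff₀ hδ₁] at hn1
    nlinarith
  have hKN : 0 < KK d / N := by positivity
  set s₁ := t + σ * (KK d / N) with hs₁
  have hs₁I : s₁ ∈ I := hside _ hKN.le hKN0
  have hsub : uIcc t s₁ ⊆ I := by
    intro u hu
    exact hc.interval.uIcc_subset ht hs₁I hu
  have hlen : ∀ u ∈ uIcc t s₁, |u - t| ≤ KK d / N := by
    intro u hu
    have := abs_sub_left_of_mem_uIcc hu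
    rw [hs₁, add_sub_cancel_left, abs_mul, hσ, one_mul, abs_of_pos hKN] at this
    exact this
  have hlen2 : ∀ u ∈ uIcc t s₁, ∀ w ∈ uIcc t s₁, |u - w| ≤ KK d / N := by
    intro u hu w hw
    have := abs_sub_le_of_uIcc_subset_uIcc (uIcc_subset_uIcc hw hu)
    rw [hs₁, add_sub_cancel_left, abs_mul, hσ, one_mul, abs_of_pos hKN] at this
    exact this
  have hball : ∀ u ∈ uIcc t s₁, u ∈ Metric.ball t δ₁ ∩ I := by
    intro u hu
    refine ⟨?_, hsub hu⟩
    rw [Metric.mem_ball, Real.dist_eq]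
    exact lt_of_le_of_lt (hlen u hu) hKN1
  -- the coordinate has a large increment
  have hinc : 2 * Real.pi / N ≤ |c s₁ j - c t j| := by
    have h4 := (h3 (hball s₁ right_mem_uIcc)).1
    rw [hs₁, add_sub_cancel_left, smul_eq_mul, Real.norm_eq_abs, Real.norm_eq_abs, abs_mul, hσ,
      one_mul, abs_of_pos hKN] at h4
    have h5 : |σ * (KK d / N) * v j| = KK d / N * |v j| := by
      rw [abs_mul, abs_mul, hσ, one_mul, abs_of_pos hKN]
    have h6 : |σ * (KK d / N) * v j| - |c s₁ j - c t j| ≤ |v j| / 2 * (KK d / N) := by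
      refine le_trans ?_ h4
      rw [← abs_neg (c (t + σ * (KK d / N)) j - c t j - σ * (KK d / N) * v j)]
      have := abs_sub_abs_le_abs_sub (σ * (KK d / N) * v j) (c s₁ j - c t j)
      refine this.trans (le_of_eq ?_)
      congr 1
      rw [hs₁]
      ring
    rw [h5] at h6
    have h7 : 2 * Real.pi / N ≤ |v j| / 2 * (KK d / N) := by
      have h8 : 2 * Real.pi ≤ |v j| / 2 * KK d := by
        have h9 : 2 * Real.pi = (1 / Real.sqrt d) / 2 * KK d := by
          unfold KK
          field_simp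
          ring
        rw [h9]
        apply mul_le_mul_of_nonneg_right _ hK.le
        linarith
      rw [← mul_div_assoc]
      exact div_le_div_of_nonneg_right h8 hN.le
    linarith
  have hcont : ContinuousOn (fun s => c s j) (uIcc t s₁) := by
    have h4 : ContinuousOn c I := hc.contDiffOn.continuousOn
    have h5 : Continuous (fun x : E d => x j) := by fun_prop
    exact (h5.comp_continuousOn h4).mono hsub
  obtain ⟨⟨u, hu, hcu⟩, w, hw, hcw⟩ := cos_osc hN hcont hinc
  have hmem : ∀ s ∈ uIcc t s₁, c s ∈ closure U := fun s hs =>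
    subset_closure (hc.mapsTo s (hsub hs))
  have hf1 : ∀ x : closure U, |f x - (g₀ x + A * Real.cos (N * (x : E d) j))| < A / 8 := by
    intro x
    have := (ContinuousMap.dist_apply_le_dist (f := f) (g := g₀ + wave U j A N) x).trans_lt hdist
    rwa [Real.dist_eq] at this
  have hfu := hf1 ⟨c u, hmem u hu⟩
  have hfw := hf1 ⟨c w, hmem w hw⟩
  have hg1 : dist (g₀ ⟨c u, hmem u hu⟩) (g₀ ⟨c w, hmem w hw⟩) ≤ A / 4 := by
    apply hg₀
    rw [Subtype.dist_eq]
    exact (hc.dist_le (hsub hu) (hsub hw)).trans (hlen2 u hu w hw)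
  rw [Real.dist_eq] at hg1
  simp only [hcu, hcw] at hfu hfw
  have hbig : A ≤ g u - g w := by
    rw [hg u (hsub hu) (hmem u hu), hg w (hsub hw) (hmem w hw)]
    rw [abs_lt] at hfu hfw
    rw [abs_le] at hg1
    linarith [hfu.1, hfw.2, hg1.1]
  -- the increment is small by differentiability
  have hsmall : ∀ s ∈ uIcc t s₁, |g s - g t| ≤ (|D| + 1) * (KK d / N) := by
    intro s hs
    have h4 := (h3 (hball s hs)).2
    rw [Real.norm_eq_abs, Real.norm_eq_abs, one_mul, smul_eq_mul] at h4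
    have h5 : |g s - g t| ≤ |g s - g t - (s - t) * D| + |(s - t) * D| := by
      have := abs_add_le (g s - g t - (s - t) * D) ((s - t) * D)
      rwa [sub_add_cancel] at this
    rw [abs_mul] at h5
    have h6 := hlen s hs
    have h7 : |s - t| * |D| ≤ KK d / N * |D| := mul_le_mul_of_nonneg_right h6 (abs_nonneg _)
    linarith
  have h10 : g u - g w ≤ 2 * (|D| + 1) * (KK d / N) := by
    have h4 := abs_le.1 (hsmall u hu)
    have h5 := abs_le.1 (hsmall w hw)
    linarith [h4.2, h5.1]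
  have h11 : A * N ≤ 2 * (|D| + 1) * KK d := by
    have h12 : A ≤ 2 * (|D| + 1) * KK d / N := by
      rw [mul_div_assoc]
      linarith
    rwa [le_div_iff₀ hN] at h12
  have h13 : 0 < (|D| + 1) * KK d := by positivity
  linarith

/-- For every `d` and every bounded open set `U` in Euclidean `d`-space there is a dense `G_δ`
subset `G` of `C(closure U)` such that the restriction of every `f ∈ G` to every unit speed `C¹`
curve in `U` is nowhere differentiable. -/
theorem result (d : ℕ) (U : Set (E d)) (_hU : IsOpen U) (hb : Bornology.IsBounded U) :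
    ∃ G : Set C(closure U, ℝ), IsGδ G ∧ Dense G ∧ G ⊆ NowhereDiff U := by
  have : CompactSpace (closure U) := isCompact_iff_compactSpace.1 hb.isCompact_closure
  refine ⟨⋂ p : Fin d × ℕ, O U p.1 p.2, ?_, ?_, ?_⟩
  · exact IsGδ.iInter_of_isOpen fun p => isOpen_O U p.1 p.2
  · exact dense_iInter_of_isOpen (fun p => isOpen_O U p.1 p.2) (fun p => dense_O U p.1 p.2)
  · intro f hf
    rw [mem_iInter] at hf
    exact mem_nowhereDiff U fun j n => hf (j, n)

end Pool.Agent.Results.MP_3b0c1c_an.GenericAllCurves
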